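import Mathlib

set_option autoImplicit false

/-!
# A simple planar digraph whose star dichromatic number is exactly 2
-/

namespace Pool.Agent.Results.MP_45899d_co.StarDichromaticTwo

/-- A digraph is simple: no loops and no pair of opposite arcs (parallel arcs are excluded by the
use of an adjacency relation). -/
def Simple {V : Type} (D : Digraph V) : Prop :=
  (∀ v, ¬ D.Adj v v) ∧ ∀ u v, D.Adj u v → ¬ D.Adj v u

/-- Adjacency in the underlying undirected graph. -/
def Und {V : Type} (D : Digraph V) (u v : V) : Prop := D.Adj u v ∨ D.Adj v u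

/-- The underlying graph of `D` has a straight-line drawing in the plane without crossings: the
vertices are placed at distinct points `f v`, no vertex lies on the segment of an edge unless it is
an end of this edge, and the segments of two different edges meet at most in a common end. -/
def StraightLinePlanar {V : Type} (D : Digraph V) : Prop :=
  ∃ f : V → ℝ × ℝ, Function.Injective f ∧
    (∀ u v w, Und D u v → f w ∈ segment ℝ (f u) (f v) → w = u ∨ w = v) ∧
    (∀ u v x y, Und D u v → Und D x y → ¬ ((u = x ∧ v = y) ∨ (u = y ∧ v = x)) →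
      ∀ p, p ∈ segment ℝ (f u) (f v) → p ∈ segment ℝ (f x) (f y) →
        ∃ w, (w = u ∨ w = v) ∧ (w = x ∨ w = y) ∧ p = f w)

/-- The vertex set `S` is acyclic: the subdigraph induced on `S` has no directed cycle (no closed
directed walk of positive length). -/
def Acyclic {V : Type} (D : Digraph V) (S : Set V) : Prop :=
  ∀ v, ¬ Relation.TransGen (fun a b => D.Adj a b ∧ a ∈ S ∧ b ∈ S) v v

/-- `c : V → ℤ_k` is an acyclic `(k, d)`-colouring of `D`: for every `i ∈ ℤ_k` the set
`c⁻¹({i, i + 1, …, i + d - 1})` is acyclic. -/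
def IsAcyclicColouring {V : Type} (D : Digraph V) (k d : ℕ) (c : V → ZMod k) : Prop :=
  ∀ i : ZMod k, Acyclic D {v | ∃ j : ℕ, j < d ∧ c v = i + (j : ZMod k)}

/-- The set of all ratios `k / d` with `k ≥ d ≥ 1` for which `D` has an acyclic
`(k, d)`-colouring.  The star dichromatic number of `D` is the least element of this set. -/
def ratios {V : Type} (D : Digraph V) : Set ℚ :=
  {q | ∃ k d : ℕ, 1 ≤ d ∧ d ≤ k ∧ q = (k : ℚ) / d ∧
    ∃ c : V → ZMod k, IsAcyclicColouring D k d c}

/-! ### Drawings -/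

/-- Orientation determinant. -/
def orient (p q r : ℝ × ℝ) : ℝ := (q.1 - p.1) * (r.2 - p.2) - (q.2 - p.2) * (r.1 - p.1)

lemma orient_segment {p q r s x : ℝ × ℝ} (hx : x ∈ segment ℝ r s) :
    ∃ t : ℝ, 0 ≤ t ∧ t ≤ 1 ∧ x = (1 - t) • r + t • s ∧
      orient p q x = (1 - t) * orient p q r + t * orient p q s := by
  obtain ⟨a, b, ha, hb, hab, rfl⟩ := hx
  refine ⟨b, hb, by linarith, ?_, ?_⟩
  · rw [← hab]; congr 2; ring
  · have : a = 1 - b := by linarith
    subst this
    simp only [orient, Prod.fst_add, Prod.snd_add, Prod.smul_fst, Prod.smul_snd, smul_eq_mul]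
    ring

lemma orient_left (p q : ℝ × ℝ) : orient p q p = 0 := by simp [orient]

lemma orient_right (p q : ℝ × ℝ) : orient p q q = 0 := by simp [orient]; ring

lemma orient_mem {p q x : ℝ × ℝ} (hx : x ∈ segment ℝ p q) : orient p q x = 0 := by
  obtain ⟨t, -, -, -, h⟩ := orient_segment (p := p) (q := q) hx
  rw [h, orient_left, orient_right]; ring

lemma seg_disjoint {p q r s x : ℝ × ℝ} (h : 0 < orient p q r * orient p q s)
    (h1 : x ∈ segment ℝ p q) (h2 : x ∈ segment ℝ r s) : False := by
  have h0 := orient_mem h1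
  obtain ⟨t, ht0, ht1, -, h3⟩ := orient_segment (p := p) (q := q) h2
  rw [h0] at h3
  rcases pos_and_pos_or_neg_and_neg_of_mul_pos h with ⟨ha, hb⟩ | ⟨ha, hb⟩
  · rcases eq_or_lt_of_le ht0 with h4 | h4
    · rw [← h4] at h3; linarith
    · have := mul_pos h4 hb
      have := mul_nonneg (sub_nonneg.mpr ht1) ha.le
      linarith
  · rcases eq_or_lt_of_le ht0 with h4 | h4
    · rw [← h4] at h3; linarith
    · have := mul_neg_of_pos_of_neg h4 hb
      have := mul_nonpos_of_nonneg_of_nonpos (sub_nonneg.mpr ht1) ha.le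
      linarith

lemma seg_share {p q r x : ℝ × ℝ} (h : orient p q r ≠ 0)
    (h1 : x ∈ segment ℝ p q) (h2 : x ∈ segment ℝ p r) : x = p := by
  have h0 := orient_mem h1
  obtain ⟨t, ht0, ht1, hx, h3⟩ := orient_segment (p := p) (q := q) h2
  rw [h0, orient_left] at h3
  have ht : t = 0 := by
    rcases mul_eq_zero.mp (show t * orient p q r = 0 by linarith) with h4 | h4
    · exact h4
    · exact absurd h4 h
  rw [hx, ht]; simp

/-- Integer orientation determinant. -/
def orientZ (p q r : ℤ × ℤ) : ℤ := (q.1 - p.1) * (r.2 - p.2) - (q.2 - p.2) * (r.1 - p.1)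

/-- Integer points seen in the plane. -/
def toR (p : ℤ × ℤ) : ℝ × ℝ := ((p.1 : ℝ), (p.2 : ℝ))

lemma orient_toR (p q r : ℤ × ℤ) : orient (toR p) (toR q) (toR r) = (orientZ p q r : ℤ) := by
  simp [orient, orientZ, toR]

lemma toR_injective : Function.Injective toR := by
  rintro ⟨a, b⟩ ⟨c, d⟩ h
  simp only [toR, Prod.mk.injEq, Int.cast_inj] at h
  exact Prod.ext h.1 h.2

/-- A criterion for straight-line planarity in terms of integer points. -/
lemma planar_of_int {V : Type} (D : Digraph V) (P : V → ℤ × ℤ)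
    (hinj : Function.Injective P)
    (hloop : ∀ v, ¬ D.Adj v v)
    (h1 : ∀ u v w, Und D u v → w ≠ u → w ≠ v → orientZ (P u) (P v) (P w) ≠ 0)
    (h2 : ∀ u v x y, Und D u v → Und D x y → u ≠ x → u ≠ y → v ≠ x → v ≠ y →
      0 < orientZ (P u) (P v) (P x) * orientZ (P u) (P v) (P y) ∨
      0 < orientZ (P x) (P y) (P u) * orientZ (P x) (P y) (P v)) :
    StraightLinePlanar D := by
  have hne : ∀ {u v}, Und D u v → u ≠ v := by
    rintro u v (h | h) rfl
    · exact hloop _ h
    · exact hloop _ h
  have hsymm : ∀ {u v}, Und D u v → Und D v u := fun h => h.symm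
  have hshare : ∀ u v y, Und D u v → Und D u y → v ≠ y → ∀ p,
      p ∈ segment ℝ (toR (P u)) (toR (P v)) → p ∈ segment ℝ (toR (P u)) (toR (P y)) →
      p = toR (P u) := by
    intro u v y huv huy hvy p hp1 hp2
    refine seg_share ?_ hp1 hp2
    rw [orient_toR]
    exact_mod_cast h1 u v y huv (hne huy).symm hvy.symm
  refine ⟨fun v => toR (P v), toR_injective.comp hinj, ?_, ?_⟩
  · intro u v w huv hw
    by_contra hcon
    push Not at hcon
    have := orient_mem hw
    rw [orient_toR] at this
    exact h1 u v w huv hcon.1 hcon.2 (by exact_mod_cast this)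
  · intro u v x y huv hxy hdiff p hp1 hp2
    have huv' := hne huv
    have hxy' := hne hxy
    by_cases hux : u = x
    · subst hux
      have hvy : v ≠ y := fun h => hdiff (Or.inl ⟨rfl, h⟩)
      exact ⟨u, Or.inl rfl, Or.inl rfl, hshare u v y huv hxy hvy p hp1 hp2⟩
    by_cases huy : u = y
    · subst huy
      have hvx : v ≠ x := fun h => hdiff (Or.inr ⟨rfl, h⟩)
      rw [segment_symm] at hp2
      exact ⟨u, Or.inl rfl, Or.inr rfl, hshare u v x huv (hsymm hxy) hvx p hp1 hp2⟩
    by_cases hvx : v = x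
    · subst hvx
      rw [segment_symm] at hp1
      exact ⟨v, Or.inr rfl, Or.inl rfl, hshare v u y (hsymm huv) hxy huy p hp1 hp2⟩
    by_cases hvy : v = y
    · subst hvy
      rw [segment_symm] at hp1 hp2
      exact ⟨v, Or.inr rfl, Or.inr rfl,
        hshare v u x (hsymm huv) (hsymm hxy) hux p hp1 hp2⟩
    exfalso
    rcases h2 u v x y huv hxy hux huy hvx hvy with h | h
    · refine seg_disjoint ?_ hp1 hp2
      rw [orient_toR, orient_toR]
      exact_mod_cast h
    · refine seg_disjoint ?_ hp2 hp1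
      rw [orient_toR, orient_toR]
      exact_mod_cast h

/-! ### The digraph -/

/-- The arcs of the digraph: the hub is `0`, the vertices `1, 2, 3` form a directed triangle, and
`4, 5, 6` are stacked into the triangles `012`, `023`, `031`. -/
def arcs : List (Fin 7 × Fin 7) :=
  [(0, 1), (0, 2), (0, 3), (1, 2), (2, 3), (3, 1),
   (1, 4), (2, 4), (4, 0), (2, 5), (3, 5), (5, 0), (3, 6), (1, 6), (6, 0)]

/-- The digraph. -/
def D : Digraph (Fin 7) where
  Adj u v := (u, v) ∈ arcs

instance : DecidableRel D.Adj := fun u v => inferInstanceAs (Decidable ((u, v) ∈ arcs))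

instance : DecidableRel (Und D) := fun u v =>
  inferInstanceAs (Decidable (D.Adj u v ∨ D.Adj v u))

/-- Positions of the vertices. -/
def pos : Fin 7 → ℤ × ℤ :=
  ![(0, 0), (0, 10), (-9, -6), (9, -6), (-3, 1), (1, -3), (3, 1)]

lemma simple : Simple D := by
  constructor
  · decide
  · decide

lemma planar : StraightLinePlanar D := by
  refine planar_of_int D pos ?_ simple.1 ?_ ?_
  · decide
  · decide +kernel
  · decide +kernel

/-! ### No colouring with ratio below two -/

section lower

variable {k d : ℕ} {c : Fin 7 → ZMod k}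

/-- `b` lies in the window starting at the colour of `a`. -/
def R (d : ℕ) (c : Fin 7 → ZMod k) (a b : Fin 7) : Prop := ∃ j : ℕ, j < d ∧ c b = c a + (j : ZMod k)

lemma R_refl (hd : 1 ≤ d) (a : Fin 7) : R d c a a := ⟨0, hd, by simp⟩

lemma R_total (hk : 1 ≤ k) (hkd : k < 2 * d) (a b : Fin 7) : R d c a b ∨ R d c b a := by
  haveI : NeZero k := ⟨by omega⟩
  by_cases h : (c b - c a).val < d
  · left
    refine ⟨_, h, ?_⟩
    rw [ZMod.natCast_val, ZMod.cast_id]
    ring
  · right
    push Not at h
    have hlt := ZMod.val_lt (c b - c a)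
    refine ⟨k - (c b - c a).val, by omega, ?_⟩
    rw [Nat.cast_sub hlt.le, ZMod.natCast_self, ZMod.natCast_val, ZMod.cast_id]
    ring

/-- No directed triangle has all its vertices in a window. -/
lemma no_tri (hc : IsAcyclicColouring D k d c) (i : ZMod k) {a b e : Fin 7}
    (hab : D.Adj a b) (hbe : D.Adj b e) (hea : D.Adj e a)
    (ha : ∃ j : ℕ, j < d ∧ c a = i + (j : ZMod k)) (hb : ∃ j : ℕ, j < d ∧ c b = i + (j : ZMod k))
    (he : ∃ j : ℕ, j < d ∧ c e = i + (j : ZMod k)) : False :=
  hc i a (((Relation.TransGen.single ⟨hab, ha, hb⟩).tail ⟨hbe, hb, he⟩).tail ⟨hea, he, ha⟩)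

lemma R_back {a b : Fin 7} (h : R d c b a) :
    ∃ j : ℕ, j < d ∧ c b = (c a - ((d - 1 : ℕ) : ZMod k)) + (j : ZMod k) := by
  obtain ⟨j, hj, h⟩ := h
  refine ⟨d - 1 - j, by omega, ?_⟩
  rw [h, Nat.cast_sub (by omega : j ≤ d - 1)]
  ring

/-- In a directed triangle at most one of the other two vertices follows `a`. -/
lemma not_out (hd : 1 ≤ d) (hc : IsAcyclicColouring D k d c) {a b e : Fin 7}
    (hab : D.Adj a b) (hbe : D.Adj b e) (hea : D.Adj e a) (h1 : R d c a b) (h2 : R d c a e) :
    False :=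
  no_tri hc (c a) hab hbe hea (R_refl hd a) h1 h2

lemma not_in (hd : 1 ≤ d) (hc : IsAcyclicColouring D k d c) {a b e : Fin 7}
    (hab : D.Adj a b) (hbe : D.Adj b e) (hea : D.Adj e a) (h1 : R d c b a) (h2 : R d c e a) :
    False :=
  no_tri hc (c a - ((d - 1 : ℕ) : ZMod k)) hab hbe hea (R_back (R_refl hd a)) (R_back h1)
    (R_back h2)

lemma tri_pos (hk : 1 ≤ k) (hd : 1 ≤ d) (hkd : k < 2 * d) (hc : IsAcyclicColouring D k d c)
    {a b e : Fin 7} (hab : D.Adj a b) (hbe : D.Adj b e) (hea : D.Adj e a) (h : R d c a b) :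
    R d c b e ∧ R d c e a := by
  have h1 : R d c e a := (R_total hk hkd a e).resolve_left
    fun h' => not_out hd hc hab hbe hea h h'
  refine ⟨(R_total hk hkd b e).resolve_right fun h' => ?_, h1⟩
  exact not_out hd hc hea hab hbe h1 h'

lemma tri_neg (hk : 1 ≤ k) (hd : 1 ≤ d) (hkd : k < 2 * d) (hc : IsAcyclicColouring D k d c)
    {a b e : Fin 7} (hab : D.Adj a b) (hbe : D.Adj b e) (hea : D.Adj e a) (h : R d c b a) :
    R d c e b ∧ R d c a e := by
  have h1 : R d c a e := (R_total hk hkd a e).resolve_right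
    fun h' => not_in hd hc hab hbe hea h h'
  refine ⟨(R_total hk hkd e b).resolve_right fun h' => ?_, h1⟩
  exact not_in hd hc hea hab hbe h1 h'

lemma lower (hk : 1 ≤ k) (hd : 1 ≤ d) (hkd : k < 2 * d) (hc : IsAcyclicColouring D k d c) :
    False := by
  have P := @tri_pos k d c hk hd hkd hc
  have Q := @tri_neg k d c hk hd hkd hc
  rcases R_total (c := c) hk hkd 0 1 with h1 | h1
  · -- all triangles are positive
    have h2 : R d c 4 0 := (P (by decide : D.Adj 0 1) (by decide : D.Adj 1 4)
      (by decide : D.Adj 4 0) h1).2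
    have h3 : R d c 0 2 := (P (by decide : D.Adj 4 0) (by decide : D.Adj 0 2)
      (by decide : D.Adj 2 4) h2).1
    have h4 : R d c 5 0 := (P (by decide : D.Adj 0 2) (by decide : D.Adj 2 5)
      (by decide : D.Adj 5 0) h3).2
    have h5 : R d c 0 3 := (P (by decide : D.Adj 5 0) (by decide : D.Adj 0 3)
      (by decide : D.Adj 3 5) h4).1
    exact no_tri hc (c 0) (by decide : D.Adj 1 2) (by decide : D.Adj 2 3)
      (by decide : D.Adj 3 1) h1 h3 h5
  · have h2 : R d c 0 4 := (Q (by decide : D.Adj 0 1) (by decide : D.Adj 1 4)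
      (by decide : D.Adj 4 0) h1).2
    have h3 : R d c 2 0 := (Q (by decide : D.Adj 4 0) (by decide : D.Adj 0 2)
      (by decide : D.Adj 2 4) h2).1
    have h4 : R d c 0 5 := (Q (by decide : D.Adj 0 2) (by decide : D.Adj 2 5)
      (by decide : D.Adj 5 0) h3).2
    have h5 : R d c 3 0 := (Q (by decide : D.Adj 5 0) (by decide : D.Adj 0 3)
      (by decide : D.Adj 3 5) h4).1
    exact no_tri hc (c 0 - ((d - 1 : ℕ) : ZMod k)) (by decide : D.Adj 1 2)
      (by decide : D.Adj 2 3) (by decide : D.Adj 3 1) (R_back h1) (R_back h3) (R_back h5)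

end lower

/-! ### A colouring with ratio two -/

/-- An acyclic 2-colouring. -/
def col : Fin 7 → ZMod 2 := ![0, 0, 0, 1, 1, 1, 1]

/-- A potential increasing along the arcs inside a colour class. -/
def pot : Fin 7 → ℕ := ![0, 1, 2, 0, 1, 1, 1]

lemma col_ok : IsAcyclicColouring D 2 1 col := by
  intro i v h
  have key : ∀ a b : Fin 7, D.Adj a b → col a = col b → pot a < pot b := by decide
  have step : ∀ a b : Fin 7, Relation.TransGen (fun a b => D.Adj a b ∧
      a ∈ {v | ∃ j : ℕ, j < 1 ∧ col v = i + (j : ZMod 2)} ∧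
      b ∈ {v | ∃ j : ℕ, j < 1 ∧ col v = i + (j : ZMod 2)}) a b → pot a < pot b := by
    intro a b hab
    have single : ∀ a b : Fin 7, (D.Adj a b ∧
        a ∈ {v | ∃ j : ℕ, j < 1 ∧ col v = i + (j : ZMod 2)} ∧
        b ∈ {v | ∃ j : ℕ, j < 1 ∧ col v = i + (j : ZMod 2)}) → pot a < pot b := by
      rintro a b ⟨h1, ⟨j, hj, hj'⟩, ⟨l, hl, hl'⟩⟩
      have ej : j = 0 := by omega
      have el : l = 0 := by omega
      subst ej el
      exact key a b h1 (hj'.trans hl'.symm)
    induction hab with
    | single h => exact single _ _ h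
    | tail _ h ih => exact ih.trans (single _ _ h)
  exact lt_irrefl _ (step v v h)

/-- **Theorem.** There is a finite simple digraph whose underlying graph has a crossing-free
straight-line drawing in the plane and whose star dichromatic number is exactly `2`. -/
theorem result : ∃ (V : Type) (_ : Fintype V) (D : Digraph V),
    Simple D ∧ StraightLinePlanar D ∧ IsLeast (ratios D) 2 := by
  refine ⟨Fin 7, inferInstance, D, simple, planar, ?_, ?_⟩
  · exact ⟨2, 1, le_rfl, by norm_num, by norm_num, col, col_ok⟩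
  · rintro q ⟨k, d, hd, hdk, rfl, c, hc⟩
    by_contra hlt
    push Not at hlt
    have hd' : (0 : ℚ) < d := by exact_mod_cast hd
    rw [div_lt_iff₀ hd'] at hlt
    have hkd : k < 2 * d := by exact_mod_cast hlt
    exact lower (hd.trans hdk) hd hkd hc

end Pool.Agent.Results.MP_45899d_co.StarDichromaticTwo
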